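import Pool.Agent.Work.MP_54723a_co.KM.Rev

/-!
# Weighted flash degrees and sets with short coloured paths (note 8397 of helper75)

* `choose_options` : a random choice of an option for every colour, derandomised.
* `class_bound` : a set without 3-flash and of rank at most `R` in which every vertex has at most
  `s` out-colours and at most `s` in-colours among the flash colours has at most
  `2 ^ R / θ ^ (2 * s)` vertices, where `θ ^ 2 = 2 * (1 - θ)`.
* `small_of_short` : a set in which the rainbow paths using flash colours only have at most `s`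
  edges has at most `(s + 1) ^ 2 * 2 ^ R / θ ^ (2 * s)` vertices.
-/

set_option autoImplicit false

namespace FlashRainbow

open Classical

variable {c : ℕ → ℕ → ℕ} {U V T X Y Γ : Finset ℕ} {R s : ℕ}

/-- derandomised choice of an option for every colour -/
theorem choose_options (O : Finset ℕ) (p : ℕ → ℝ) (hp : ∀ o ∈ O, 0 ≤ p o)
    (hp1 : ∑ o ∈ O, p o ≤ 1) (keep : ℕ → ℕ → ℕ → Prop) (N : ℝ) (hN : 0 ≤ N) (Γ : Finset ℕ) :
    ∀ T : Finset ℕ, (∀ f : ℕ → ℕ, (∀ γ ∈ Γ, f γ ∈ O) →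
      ((T.filter fun v => ∀ γ ∈ Γ, keep γ (f γ) v).card : ℝ) ≤ N) →
    ∑ v ∈ T, ∏ γ ∈ Γ, (∑ o ∈ O.filter (fun o => keep γ o v), p o) ≤ N := by
  induction Γ using Finset.induction_on with
  | empty =>
    intro T h
    have h1 := h id (fun γ hγ => absurd hγ (Finset.notMem_empty _))
    simpa using h1
  | @insert γ Γ hγ ih =>
    intro T h
    have h1 : ∀ v, ∏ γ' ∈ insert γ Γ, (∑ o ∈ O.filter (fun o => keep γ' o v), p o) =
        ∑ o ∈ O, if keep γ o v then
          p o * ∏ γ' ∈ Γ, (∑ o ∈ O.filter (fun o => keep γ' o v), p o) else 0 := by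
      intro v
      rw [Finset.prod_insert hγ, Finset.sum_mul, Finset.sum_filter]
    rw [Finset.sum_congr rfl fun v _ => h1 v, Finset.sum_comm]
    have h2 : ∀ o ∈ O, ∑ v ∈ T, (if keep γ o v then
          p o * ∏ γ' ∈ Γ, (∑ o ∈ O.filter (fun o => keep γ' o v), p o) else 0) ≤ p o * N := by
      intro o ho
      rw [← Finset.sum_filter, ← Finset.mul_sum]
      refine mul_le_mul_of_nonneg_left (ih _ fun f hf => ?_) (hp o ho)
      have h3 := h (Function.update f γ o) (by
        intro γ' hγ'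
        by_cases h4 : γ' = γ
        · rw [h4, Function.update_self]
          exact ho
        · rw [Function.update_of_ne h4]
          exact hf γ' ((Finset.mem_insert.mp hγ').resolve_left h4))
      refine le_trans ?_ h3
      have h5 : ((T.filter fun v => keep γ o v).filter fun v => ∀ γ' ∈ Γ, keep γ' (f γ') v) ⊆
          T.filter fun v => ∀ γ' ∈ insert γ Γ, keep γ' (Function.update f γ o γ') v := by
        intro v hv
        rw [Finset.mem_filter, Finset.mem_filter] at hv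
        rw [Finset.mem_filter]
        refine ⟨hv.1.1, fun γ' hγ' => ?_⟩
        by_cases h4 : γ' = γ
        · rw [h4, Function.update_self]
          exact hv.1.2
        · rw [Function.update_of_ne h4]
          exact hv.2 γ' ((Finset.mem_insert.mp hγ').resolve_left h4)
      exact_mod_cast Finset.card_le_card h5
    refine (Finset.sum_le_sum h2).trans ?_
    rw [← Finset.sum_mul]
    calc (∑ o ∈ O, p o) * N ≤ 1 * N := mul_le_mul_of_nonneg_right hp1 hN
      _ = N := one_mul N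

/-! ### Roles in 2-flashes -/

/-- `v` is the first vertex of a 2-flash -/
def Tl (c : ℕ → ℕ → ℕ) (V : Finset ℕ) (γ v : ℕ) : Prop :=
  ∃ b ∈ V, ∃ d ∈ V, v < b ∧ b < d ∧ c v b = γ ∧ c b d = γ

/-- `v` is the middle vertex of a 2-flash -/
def Md (c : ℕ → ℕ → ℕ) (V : Finset ℕ) (γ v : ℕ) : Prop :=
  ∃ a ∈ V, ∃ d ∈ V, a < v ∧ v < d ∧ c a v = γ ∧ c v d = γ

/-- `v` is the last vertex of a 2-flash -/
def Hd (c : ℕ → ℕ → ℕ) (V : Finset ℕ) (γ v : ℕ) : Prop :=
  ∃ a ∈ V, ∃ b ∈ V, a < b ∧ b < v ∧ c a b = γ ∧ c b v = γ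

/-- the role of `v` in the 2-flashes of colour `γ` -/
noncomputable def role (c : ℕ → ℕ → ℕ) (V : Finset ℕ) (γ v : ℕ) : ℕ :=
  if Tl c V γ v then 1 else if Md c V γ v then 2 else if Hd c V γ v then 3 else 0

theorem no3 (hno : ∀ γ v, ¬ MP c V γ v 3) {a b d e γ : ℕ} (ha : a ∈ V) (hb : b ∈ V)
    (hd : d ∈ V) (he : e ∈ V) (hab : a < b) (hbd : b < d) (hde : d < e) (h1 : c a b = γ)
    (h2 : c b d = γ) (h3 : c d e = γ) : False :=
  hno γ e (MP.step (MP.step (MP.step (MP.single ha) hb hab h1) hd hbd h2) he hde h3)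

theorem role_tl {γ v : ℕ} (h : Tl c V γ v) : role c V γ v = 1 := if_pos h

theorem role_md (hno : ∀ γ v, ¬ MP c V γ v 3) {γ v : ℕ} (hv : v ∈ V) (h : Md c V γ v) :
    role c V γ v = 2 := by
  unfold role
  rw [if_neg, if_pos h]
  rintro ⟨b, hb, d, hd, hvb, hbd, h1, h2⟩
  obtain ⟨a, ha, _, _, hav, _, h3, _⟩ := h
  exact no3 hno ha hv hb hd hav hvb hbd h3 h1 h2

theorem role_hd (hno : ∀ γ v, ¬ MP c V γ v 3) {γ v : ℕ} (hv : v ∈ V) (h : Hd c V γ v) :
    role c V γ v = 3 := by
  obtain ⟨x, hx, y, hy, hxy, hyv, h5, h6⟩ := h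
  unfold role
  rw [if_neg, if_neg, if_pos ⟨x, hx, y, hy, hxy, hyv, h5, h6⟩]
  · rintro ⟨a, _, d, hd, _, hvd, _, h4⟩
    exact no3 hno hx hy hv hd hxy hyv hvd h5 h6 h4
  · rintro ⟨b, hb, _, _, hvb, _, h1, _⟩
    exact no3 hno hx hy hv hb hxy hyv hvb h5 h6 h1

/-- the cost of a role -/
def kk (r : ℕ) : ℕ := if r = 2 then 2 else if r = 0 then 0 else 1

theorem kk_le {γ v : ℕ} : kk (role c V γ v) ≤
    (if OutE c V γ v then 1 else 0) + (if InE c V γ v then 1 else 0) := by
  unfold role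
  by_cases h1 : Tl c V γ v
  · rw [if_pos h1]
    have : OutE c V γ v := by
      obtain ⟨b, hb, _, _, hvb, _, h2, _⟩ := h1
      exact ⟨b, hb, hvb, h2⟩
    rw [if_pos this]
    unfold kk
    simp
  · rw [if_neg h1]
    by_cases h2 : Md c V γ v
    · rw [if_pos h2]
      obtain ⟨a, ha, d, hd, hav, hvd, h3, h4⟩ := h2
      have h5 : OutE c V γ v := ⟨d, hd, hvd, h4⟩
      have h6 : InE c V γ v := ⟨a, ha, hav, h3⟩
      rw [if_pos h5, if_pos h6]
      unfold kk
      simp
    · rw [if_neg h2]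
      by_cases h3 : Hd c V γ v
      · rw [if_pos h3]
        have : InE c V γ v := by
          obtain ⟨_, _, b, hb, _, hbv, _, h4⟩ := h3
          exact ⟨b, hb, hbv, h4⟩
        rw [if_pos this]
        unfold kk
        simp
      · rw [if_neg h3]
        unfold kk
        simp

theorem role_le (γ v : ℕ) : role c V γ v ≤ 3 := by
  unfold role
  split_ifs <;> omega

/-- the weights of the roles -/
noncomputable def pr (θ : ℝ) (o : ℕ) : ℝ := if o = 2 then 2 * θ - 1 else 1 - θ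

theorem sum_keep {θ : ℝ} (hθ : θ ^ 2 = 2 * (1 - θ)) {r : ℕ} (hr : r ≤ 3) :
    ∑ o ∈ ({1, 2, 3} : Finset ℕ).filter (fun o => r ≠ o), pr θ o = θ ^ kk r := by
  interval_cases r
  · have h1 : ({1, 2, 3} : Finset ℕ).filter (fun o => 0 ≠ o) = {1, 2, 3} := by decide
    rw [h1, Finset.sum_insert (by decide), Finset.sum_insert (by decide), Finset.sum_singleton]
    unfold pr kk
    norm_num
    ring
  · have h1 : ({1, 2, 3} : Finset ℕ).filter (fun o => 1 ≠ o) = {2, 3} := by decide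
    rw [h1, Finset.sum_insert (by decide), Finset.sum_singleton]
    unfold pr kk
    norm_num
    ring
  · have h1 : ({1, 2, 3} : Finset ℕ).filter (fun o => 2 ≠ o) = {1, 3} := by decide
    rw [h1, Finset.sum_insert (by decide), Finset.sum_singleton]
    unfold pr kk
    norm_num
    rw [hθ]
    ring
  · have h1 : ({1, 2, 3} : Finset ℕ).filter (fun o => 3 ≠ o) = {1, 2} := by decide
    rw [h1, Finset.sum_insert (by decide), Finset.sum_singleton]
    unfold pr kk
    norm_num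
    ring

/-- **Few flash colours at every vertex.** -/
theorem class_bound {θ : ℝ} (h0 : 1 / 2 ≤ θ) (h1 : θ ≤ 1) (hθ : θ ^ 2 = 2 * (1 - θ))
    (hno : ∀ γ v, ¬ MP c Y γ v 3) (hR : Rk c Y R) (hΓ : ∀ γ, ∀ v ∈ Y, Md c Y γ v → γ ∈ Γ)
    (hout : ∀ v ∈ Y, (Γ.filter (fun γ => OutE c Y γ v)).card ≤ s)
    (hin : ∀ v ∈ Y, (Γ.filter (fun γ => InE c Y γ v)).card ≤ s) :
    (Y.card : ℝ) * θ ^ (2 * s) ≤ 2 ^ R := by
  have hθ0 : 0 < θ := by linarith
  have h2 := choose_options ({1, 2, 3} : Finset ℕ) (pr θ) (by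
      intro o _
      unfold pr
      split_ifs <;> linarith) (by
      rw [Finset.sum_insert (by decide), Finset.sum_insert (by decide), Finset.sum_singleton]
      unfold pr
      norm_num
      linarith) (fun γ o v => role c Y γ v ≠ o) (2 ^ R) (by positivity) Γ Y (by
      intro f hf
      have h3 : (Y.filter fun v => ∀ γ ∈ Γ, role c Y γ v ≠ f γ).card ≤ 2 ^ R := by
        refine two_unanchored R _ ?_ fun x D hD => hR x D (hD.mono (Finset.filter_subset _ _))
        intro a ha b hb d hd hab hbd heq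
        have ha' := Finset.mem_filter.mp ha
        have hb' := Finset.mem_filter.mp hb
        have hd' := Finset.mem_filter.mp hd
        have hγ : c a b ∈ Γ :=
          hΓ _ b hb'.1 ⟨a, ha'.1, d, hd'.1, hab, hbd, rfl, heq.symm⟩
        have r1 : role c Y (c a b) a = 1 :=
          role_tl ⟨b, hb'.1, d, hd'.1, hab, hbd, rfl, heq.symm⟩
        have r2 : role c Y (c a b) b = 2 :=
          role_md hno hb'.1 ⟨a, ha'.1, d, hd'.1, hab, hbd, rfl, heq.symm⟩
        have r3 : role c Y (c a b) d = 3 :=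
          role_hd hno hd'.1 ⟨a, ha'.1, b, hb'.1, hab, hbd, rfl, heq.symm⟩
        have h4 := hf _ hγ
        have h5 := ha'.2 _ hγ
        have h6 := hb'.2 _ hγ
        have h7 := hd'.2 _ hγ
        rw [r1] at h5
        rw [r2] at h6
        rw [r3] at h7
        simp only [Finset.mem_insert, Finset.mem_singleton] at h4
        omega
      exact_mod_cast h3)
  refine le_trans ?_ h2
  rw [← nsmul_eq_mul, ← Finset.sum_const]
  refine Finset.sum_le_sum fun v hv => ?_
  have h3 : θ ^ (2 * s) ≤ ∏ γ ∈ Γ, θ ^ kk (role c Y γ v) := by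
    rw [Finset.prod_pow_eq_pow_sum]
    refine pow_le_pow_of_le_one hθ0.le h1 ?_
    have h4 : ∑ γ ∈ Γ, kk (role c Y γ v) ≤
        ∑ γ ∈ Γ, ((if OutE c Y γ v then 1 else 0) + (if InE c Y γ v then 1 else 0)) :=
      Finset.sum_le_sum fun γ _ => kk_le
    rw [Finset.sum_add_distrib, Finset.sum_boole, Finset.sum_boole] at h4
    have h5 := hout v hv
    have h6 := hin v hv
    simp only [Nat.cast_id] at h4
    omega
  refine h3.trans (le_of_eq (Finset.prod_congr rfl fun γ _ => ?_))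
  rw [← sum_keep hθ (role_le γ v)]
  refine Finset.sum_congr ?_ fun _ _ => rfl
  ext o
  simp only [Finset.mem_filter]

/-! ### Lengths of coloured paths -/

/-- the length of the longest rainbow path into `v` with colours in `Γ` -/
noncomputable def lp (c : ℕ → ℕ → ℕ) (Γ X : Finset ℕ) (v : ℕ) : ℕ :=
  (Γ.powerset.filter (fun D => RP c X v D)).sup Finset.card

/-- the length of the longest rainbow path out of `v` with colours in `Γ` -/
noncomputable def lq (c : ℕ → ℕ → ℕ) (Γ X : Finset ℕ) (v : ℕ) : ℕ :=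
  (Γ.powerset.filter (fun D => RS c X v D)).sup Finset.card

theorem le_lp {v : ℕ} {D : Finset ℕ} (h : RP c X v D) (hD : D ⊆ Γ) : D.card ≤ lp c Γ X v :=
  Finset.le_sup (f := Finset.card) (Finset.mem_filter.mpr ⟨Finset.mem_powerset.mpr hD, h⟩)

theorem le_lq {v : ℕ} {D : Finset ℕ} (h : RS c X v D) (hD : D ⊆ Γ) : D.card ≤ lq c Γ X v :=
  Finset.le_sup (f := Finset.card) (Finset.mem_filter.mpr ⟨Finset.mem_powerset.mpr hD, h⟩)

theorem exists_lp {v : ℕ} (hv : v ∈ X) : ∃ D ⊆ Γ, RP c X v D ∧ D.card = lp c Γ X v := by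
  obtain ⟨D, hD, h⟩ := Finset.exists_mem_eq_sup (Γ.powerset.filter (fun D => RP c X v D))
    ⟨∅, Finset.mem_filter.mpr ⟨Finset.empty_mem_powerset _, RP.single hv⟩⟩ Finset.card
  rw [Finset.mem_filter, Finset.mem_powerset] at hD
  exact ⟨D, hD.1, hD.2, h.symm⟩

theorem exists_lq {v : ℕ} (hv : v ∈ X) : ∃ D ⊆ Γ, RS c X v D ∧ D.card = lq c Γ X v := by
  obtain ⟨D, hD, h⟩ := Finset.exists_mem_eq_sup (Γ.powerset.filter (fun D => RS c X v D))
    ⟨∅, Finset.mem_filter.mpr ⟨Finset.empty_mem_powerset _, RS.single hv⟩⟩ Finset.card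
  rw [Finset.mem_filter, Finset.mem_powerset] at hD
  exact ⟨D, hD.1, hD.2, h.symm⟩

theorem RS.toRP_end {v : ℕ} {D : Finset ℕ} (h : RS c X v D) : ∃ y, RP c X y D := by
  obtain ⟨y, hy⟩ := h.join (Finset.Subset.refl _) ∅ (RP.single h.mem)
    (Finset.disjoint_empty_right _)
  exact ⟨y, by simpa using hy⟩

/-- the vertices with given lengths -/
noncomputable def cla (c : ℕ → ℕ → ℕ) (Γ X : Finset ℕ) (i j : ℕ) : Finset ℕ :=
  X.filter fun v => lp c Γ X v = i ∧ lq c Γ X v = j

theorem cla_out {i j : ℕ} : ∀ v ∈ cla c Γ X i j,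
    (Γ.filter (fun γ => OutE c (cla c Γ X i j) γ v)).card ≤ i := by
  intro v hv
  have hv' := Finset.mem_filter.mp hv
  obtain ⟨D, hDΓ, hD, hDc⟩ := exists_lp (c := c) (Γ := Γ) hv'.1
  rw [hv'.2.1] at hDc
  rw [← hDc]
  refine Finset.card_le_card fun γ hγ => ?_
  obtain ⟨hγΓ, w, hw, hvw, hc⟩ := Finset.mem_filter.mp hγ
  have hw' := Finset.mem_filter.mp hw
  by_contra hnot
  have h1 : RP c X w (insert γ D) := by
    have := RP.step hD hw'.1 hvw (by rw [hc]; exact hnot)
    rwa [hc] at this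
  have h2 := le_lp h1 (Finset.insert_subset hγΓ hDΓ)
  rw [Finset.card_insert_of_notMem hnot, hw'.2.1] at h2
  omega

theorem cla_in {i j : ℕ} : ∀ v ∈ cla c Γ X i j,
    (Γ.filter (fun γ => InE c (cla c Γ X i j) γ v)).card ≤ j := by
  intro v hv
  have hv' := Finset.mem_filter.mp hv
  obtain ⟨D, hDΓ, hD, hDc⟩ := exists_lq (c := c) (Γ := Γ) hv'.1
  rw [hv'.2.2] at hDc
  rw [← hDc]
  refine Finset.card_le_card fun γ hγ => ?_
  obtain ⟨hγΓ, w, hw, hwv, hc⟩ := Finset.mem_filter.mp hγ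
  have hw' := Finset.mem_filter.mp hw
  by_contra hnot
  have h1 : RS c X w (insert γ D) := by
    have := RS.step hD hw'.1 hwv (by rw [hc]; exact hnot)
    rwa [hc] at this
  have h2 := le_lq h1 (Finset.insert_subset hγΓ hDΓ)
  rw [Finset.card_insert_of_notMem hnot, hw'.2.2] at h2
  omega

/-- the classes cover the set -/
theorem card_le_of_classes {N : ℝ} {r : ℕ} (h1 : ∀ v ∈ X, lp c Γ X v ≤ r)
    (h2 : ∀ v ∈ X, lq c Γ X v ≤ r)
    (h : ∀ i ≤ r, ∀ j ≤ r, ((cla c Γ X i j).card : ℝ) ≤ N) :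
    (X.card : ℝ) ≤ (r + 1) ^ 2 * N := by
  have hmaps : ∀ v ∈ X, (lp c Γ X v, lq c Γ X v) ∈
      Finset.range (r + 1) ×ˢ Finset.range (r + 1) := by
    intro v hv
    rw [Finset.mem_product, Finset.mem_range, Finset.mem_range]
    exact ⟨Nat.lt_succ_of_le (h1 v hv), Nat.lt_succ_of_le (h2 v hv)⟩
  rw [Finset.card_eq_sum_card_fiberwise hmaps]
  push_cast
  calc ∑ b ∈ Finset.range (r + 1) ×ˢ Finset.range (r + 1),
      ((X.filter fun v => (lp c Γ X v, lq c Γ X v) = b).card : ℝ)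
      ≤ ∑ b ∈ Finset.range (r + 1) ×ˢ Finset.range (r + 1), N := by
        refine Finset.sum_le_sum fun b hb => ?_
        rw [Finset.mem_product, Finset.mem_range, Finset.mem_range] at hb
        have h3 : (X.filter fun v => (lp c Γ X v, lq c Γ X v) = b) = cla c Γ X b.1 b.2 := by
          unfold cla
          refine Finset.filter_congr fun v _ => ?_
          rw [Prod.ext_iff]
        rw [h3]
        exact h b.1 (by omega) b.2 (by omega)
    _ = (r + 1) ^ 2 * N := by
      rw [Finset.sum_const, Finset.card_product, Finset.card_range, nsmul_eq_mul]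
      push_cast
      ring

theorem Md.mono {γ v : ℕ} (h : Md c T γ v) (hTV : T ⊆ V) : Md c V γ v := by
  obtain ⟨a, ha, d, hd, h1, h2, h3, h4⟩ := h
  exact ⟨a, hTV ha, d, hTV hd, h1, h2, h3, h4⟩

/-- **Sets with short coloured paths are small.** -/
theorem small_of_short {θ : ℝ} (h0 : 1 / 2 ≤ θ) (h1 : θ ≤ 1) (hθ : θ ^ 2 = 2 * (1 - θ))
    (hno : ∀ γ v, ¬ MP c X γ v 3) (hR : Rk c X R) (hΓ : ∀ γ, ∀ v ∈ X, Md c X γ v → γ ∈ Γ)
    (hs : ∀ x D, RP c X x D → D ⊆ Γ → D.card ≤ s) :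
    (X.card : ℝ) * θ ^ (2 * s) ≤ (s + 1) ^ 2 * 2 ^ R := by
  have hθ0 : 0 < θ := by linarith
  have hpos : 0 < θ ^ (2 * s) := by positivity
  have h2 := card_le_of_classes (c := c) (Γ := Γ) (X := X) (N := 2 ^ R / θ ^ (2 * s)) (r := s)
    (fun v hv => by
      obtain ⟨D, h3, h4, h5⟩ := exists_lp (c := c) (Γ := Γ) hv
      rw [← h5]
      exact hs v D h4 h3)
    (fun v hv => by
      obtain ⟨D, h3, h4, h5⟩ := exists_lq (c := c) (Γ := Γ) hv
      obtain ⟨y, hy⟩ := h4.toRP_end
      rw [← h5]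
      exact hs y D hy h3)
    (fun i hi j hj => by
      rw [le_div_iff₀ hpos]
      have hsub : cla c Γ X i j ⊆ X := Finset.filter_subset _ _
      refine class_bound h0 h1 hθ (fun γ v h => hno γ v (h.mono hsub))
        (hR.sub hsub) (fun γ v hv h => hΓ γ v (hsub hv) (h.mono hsub))
        (fun v hv => (cla_out v hv).trans hi) (fun v hv => (cla_in v hv).trans hj))
  rw [← mul_div_assoc, le_div_iff₀ hpos] at h2
  exact h2

end FlashRainbow
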