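import Pool.Agent.Work.MP_54723a_co.EL.Basic

/-!
# Long coloured paths whose last vertex has a label off the path (note 8397 (c) of helper75)

* `class_glue`, `glue_label` : if every rainbow path with more than `s` edges that uses flash
  colours only meets the label of its last vertex, then the set is small.
-/

set_option autoImplicit false

namespace FlashRainbow

open Classical

variable {c : ℕ → ℕ → ℕ} {U V T X Y Γ : Finset ℕ} {R s : ℕ}

/-- the type of a vertex with respect to a colour: `1` out only, `2` both, `3` in only -/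
noncomputable def ty (c : ℕ → ℕ → ℕ) (V : Finset ℕ) (γ v : ℕ) : ℕ :=
  if OutE c V γ v then (if InE c V γ v then 2 else 1) else (if InE c V γ v then 3 else 0)

theorem ty_le (γ v : ℕ) : ty c V γ v ≤ 3 := by
  unfold ty
  split_ifs <;> omega

theorem ty_out {γ v : ℕ} (h : OutE c V γ v) : ty c V γ v = 1 ∨ ty c V γ v = 2 := by
  unfold ty
  rw [if_pos h]
  split_ifs <;> simp

theorem ty_two {γ v : ℕ} : ty c V γ v = 2 ↔ OutE c V γ v ∧ InE c V γ v := by
  unfold ty
  by_cases h1 : OutE c V γ v <;> by_cases h2 : InE c V γ v <;> simp [h1, h2]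

theorem ty_touch {γ v : ℕ} (h : ty c V γ v ≠ 0) : OutE c V γ v ∨ InE c V γ v := by
  by_contra h1
  rw [not_or] at h1
  apply h
  unfold ty
  rw [if_neg h1.1, if_neg h1.2]

/-- the weights of the options -/
noncomputable def pg (R : ℕ) (o : ℕ) : ℝ := if o = 0 then 1 - 1 / (2 * R) else 1 / (6 * R)

/-- what is kept under an option -/
def kg (c : ℕ → ℕ → ℕ) (Y : Finset ℕ) (lab : ℕ → ℕ) (γ o v : ℕ) : Prop :=
  (o = 0 → lab v ≠ γ) ∧ (o ≠ 0 → ty c Y γ v = 0 ∨ ty c Y γ v = o)

theorem pg_nonneg (hR : 1 ≤ R) (o : ℕ) : 0 ≤ pg R o := by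
  have h1 : (1 : ℝ) ≤ R := by exact_mod_cast hR
  unfold pg
  split_ifs
  · rw [sub_nonneg, div_le_one (by linarith)]
    linarith
  · positivity

theorem kg_sum (hR : 1 ≤ R) (lab : ℕ → ℕ) (γ v : ℕ) :
    (if γ = lab v then (1 / (6 * R) : ℝ) else 1) *
      (if ty c Y γ v ≠ 0 then (1 - 1 / (3 * R) : ℝ) else 1) ≤
    ∑ o ∈ ({0, 1, 2, 3} : Finset ℕ).filter (fun o => kg c Y lab γ o v), pg R o := by
  have h1 : (1 : ℝ) ≤ R := by exact_mod_cast hR
  have h3R : (1 : ℝ) / (3 * R) ≤ 1 := by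
    rw [div_le_one (by linarith)]
    linarith
  have h3p : (0 : ℝ) < 1 / (3 * R) := by positivity
  have h6 : (0 : ℝ) < 1 / (6 * R) := by positivity
  have hty := ty_le (c := c) (V := Y) γ v
  by_cases hl : γ = lab v
  · rw [if_pos hl]
    have h2 : (1 / (6 * R) : ℝ) * (if ty c Y γ v ≠ 0 then (1 - 1 / (3 * R) : ℝ) else 1) ≤
        1 / (6 * R) := by
      split_ifs
      · nlinarith
      · linarith
    refine h2.trans ?_
    have h3 : ∃ o ∈ ({0, 1, 2, 3} : Finset ℕ).filter (fun o => kg c Y lab γ o v), o ≠ 0 := by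
      by_cases h0 : ty c Y γ v = 0
      · refine ⟨1, Finset.mem_filter.mpr ⟨by decide, fun h => absurd h (by omega),
          fun _ => Or.inl h0⟩, by omega⟩
      · refine ⟨ty c Y γ v, Finset.mem_filter.mpr ⟨?_, fun h => absurd h h0,
          fun _ => Or.inr rfl⟩, h0⟩
        simp only [Finset.mem_insert, Finset.mem_singleton]
        omega
    obtain ⟨o, ho, ho0⟩ := h3
    have h4 : pg R o = 1 / (6 * R) := by
      unfold pg
      rw [if_neg ho0]
    rw [← h4]
    exact Finset.single_le_sum (fun o _ => pg_nonneg hR o) ho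
  · rw [if_neg hl, one_mul]
    have hk0 : (0 : ℕ) ∈ ({0, 1, 2, 3} : Finset ℕ).filter (fun o => kg c Y lab γ o v) :=
      Finset.mem_filter.mpr ⟨by decide, fun _ h => hl h.symm, fun h => absurd rfl h⟩
    have hp0 : pg R 0 = 1 - 1 / (2 * R) := by
      unfold pg
      rw [if_pos rfl]
    by_cases h0 : ty c Y γ v = 0
    · rw [if_neg (not_not.mpr h0)]
      have h5 : ({0, 1, 2, 3} : Finset ℕ).filter (fun o => kg c Y lab γ o v) = {0, 1, 2, 3} := by
        rw [Finset.filter_eq_self]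
        intro o ho
        exact ⟨fun _ h => hl h.symm, fun _ => Or.inl h0⟩
      rw [h5, Finset.sum_insert (by decide), Finset.sum_insert (by decide),
        Finset.sum_insert (by decide), Finset.sum_singleton]
      unfold pg
      norm_num
      have : ((R : ℝ))⁻¹ * R = 1 := inv_mul_cancel₀ (by linarith)
      field_simp
      linarith
    · rw [if_pos h0]
      have hkt : ty c Y γ v ∈ ({0, 1, 2, 3} : Finset ℕ).filter (fun o => kg c Y lab γ o v) := by
        refine Finset.mem_filter.mpr ⟨?_, fun h => absurd h h0, fun _ => Or.inr rfl⟩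
        simp only [Finset.mem_insert, Finset.mem_singleton]
        omega
      have hpt : pg R (ty c Y γ v) = 1 / (6 * R) := by
        unfold pg
        rw [if_neg h0]
      have h5 : ({0, ty c Y γ v} : Finset ℕ) ⊆
          ({0, 1, 2, 3} : Finset ℕ).filter (fun o => kg c Y lab γ o v) := by
        intro o ho
        rcases Finset.mem_insert.mp ho with h | h
        · rw [h]
          exact hk0
        · rw [Finset.mem_singleton.mp h]
          exact hkt
      have h6' := Finset.sum_le_sum_of_subset_of_nonneg h5 fun o _ _ => pg_nonneg hR o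
      rw [Finset.sum_pair (Ne.symm h0), hp0, hpt] at h6'
      refine le_trans (le_of_eq ?_) h6'
      field_simp
      ring

/-- **Labels, inside a class.** -/
theorem class_glue {θ : ℝ} (h0 : 1 / 2 ≤ θ) (h1 : θ ≤ 1) (hθ : θ ^ 2 = 2 * (1 - θ))
    (hno : ∀ γ v, ¬ MP c Y γ v 3) (hR : Rk c Y R) (hR1 : 1 ≤ R)
    (hΓ : ∀ γ, ∀ v ∈ Y, Md c Y γ v → γ ∈ Γ)
    (hout : ∀ v ∈ Y, (Γ.filter (fun γ => OutE c Y γ v)).card ≤ R)
    (hin : ∀ v ∈ Y, (Γ.filter (fun γ => InE c Y γ v)).card ≤ R) (lab : ℕ → ℕ)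
    (hlab : ∀ u D, RP c Y u D → D ⊆ Γ → s < D.card → lab u ∈ D) :
    (Y.card : ℝ) * θ ^ (2 * s) ≤ 18 * R * ((s + 1) ^ 2 * 2 ^ R) := by
  have hθ0 : 0 < θ := by linarith
  have hpos : 0 < θ ^ (2 * s) := by positivity
  have hRR : (1 : ℝ) ≤ R := by exact_mod_cast hR1
  have h3R : (1 : ℝ) / (3 * R) ≤ 1 := by
    rw [div_le_one (by linarith)]
    linarith
  have h3p : (0 : ℝ) < 1 / (3 * R) := by positivity
  have h2 := choose_options ({0, 1, 2, 3} : Finset ℕ) (pg R) (fun o _ => pg_nonneg hR1 o) (by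
      rw [Finset.sum_insert (by decide), Finset.sum_insert (by decide),
        Finset.sum_insert (by decide), Finset.sum_singleton]
      unfold pg
      norm_num
      have : ((R : ℝ))⁻¹ * R = 1 := inv_mul_cancel₀ (by linarith)
      field_simp
      linarith) (kg c Y lab) ((s + 1) ^ 2 * 2 ^ R / θ ^ (2 * s)) (by positivity) Γ Y (by
      intro f hf
      rw [le_div_iff₀ hpos]
      set T := Y.filter fun v => ∀ γ ∈ Γ, kg c Y lab γ (f γ) v with hT
      have hTY : T ⊆ Y := Finset.filter_subset _ _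
      refine small_of_short (Γ := Γ.filter fun γ => f γ = 0) h0 h1 hθ
        (fun γ v h => hno γ v (h.mono hTY)) (hR.sub hTY) ?_ ?_
      · intro γ v hv hmd
        have hγ : γ ∈ Γ := hΓ γ v (hTY hv) (hmd.mono hTY)
        refine Finset.mem_filter.mpr ⟨hγ, ?_⟩
        by_contra hf0
        obtain ⟨a, ha, d, hd, hav, hvd, h3, h4⟩ := hmd
        have hva := ((Finset.mem_filter.mp hv).2 γ hγ).2 hf0
        have haa := ((Finset.mem_filter.mp ha).2 γ hγ).2 hf0
        have hv2 : ty c Y γ v = 2 := ty_two.mpr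
          ⟨⟨d, hTY hd, hvd, h4⟩, ⟨a, hTY ha, hav, h3⟩⟩
        have ha1 := ty_out (c := c) (V := Y) (γ := γ) (v := a) ⟨v, hTY hv, hav, h3⟩
        have ha2 : ty c Y γ a = 2 := by omega
        obtain ⟨-, a', ha', ha'a, h5⟩ := ty_two.mp ha2
        exact no3 hno ha' (hTY ha) (hTY hv) (hTY hd) ha'a hav hvd h5 h3 h4
      · intro x D hD hDΓ
        by_contra hs
        rw [not_le] at hs
        have h3 := hlab x D (hD.mono hTY) (hDΓ.trans (Finset.filter_subset _ _)) hs
        have h4 := Finset.mem_filter.mp (hDΓ h3)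
        exact ((Finset.mem_filter.mp hD.mem).2 _ h4.1).1 h4.2 rfl)
  have h3 : ∀ v ∈ Y, (1 / (18 * R) : ℝ) ≤ ∏ γ ∈ Γ,
      (∑ o ∈ ({0, 1, 2, 3} : Finset ℕ).filter (fun o => kg c Y lab γ o v), pg R o) := by
    intro v hv
    have h4 : ∏ γ ∈ Γ, ((if γ = lab v then (1 / (6 * R) : ℝ) else 1) *
        (if ty c Y γ v ≠ 0 then (1 - 1 / (3 * R) : ℝ) else 1)) ≤ ∏ γ ∈ Γ,
        (∑ o ∈ ({0, 1, 2, 3} : Finset ℕ).filter (fun o => kg c Y lab γ o v), pg R o) := by
      refine Finset.prod_le_prod (fun γ _ => ?_) fun γ _ => kg_sum hR1 lab γ v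
      refine mul_nonneg ?_ ?_
      · split_ifs
        · positivity
        · exact zero_le_one
      · split_ifs
        · linarith
        · exact zero_le_one
    refine le_trans ?_ h4
    rw [Finset.prod_mul_distrib]
    have h5 : (1 / (6 * R) : ℝ) ≤ ∏ γ ∈ Γ, (if γ = lab v then (1 / (6 * R) : ℝ) else 1) := by
      rw [Finset.prod_ite_eq']
      split_ifs
      · exact le_refl _
      · rw [div_le_one (by linarith)]
        linarith
    have h6 : (1 / 3 : ℝ) ≤ ∏ γ ∈ Γ, (if ty c Y γ v ≠ 0 then (1 - 1 / (3 * R) : ℝ) else 1) := by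
      rw [Finset.prod_ite, Finset.prod_const, Finset.prod_const_one, mul_one]
      have h7 : (Γ.filter fun γ => ty c Y γ v ≠ 0).card ≤ 2 * R := by
        have h8 : (Γ.filter fun γ => ty c Y γ v ≠ 0) ⊆
            (Γ.filter (fun γ => OutE c Y γ v)) ∪ (Γ.filter (fun γ => InE c Y γ v)) := by
          intro γ hγ
          obtain ⟨h9, h10⟩ := Finset.mem_filter.mp hγ
          rcases ty_touch h10 with h | h
          · exact Finset.mem_union_left _ (Finset.mem_filter.mpr ⟨h9, h⟩)
          · exact Finset.mem_union_right _ (Finset.mem_filter.mpr ⟨h9, h⟩)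
        have h9 := (Finset.card_le_card h8).trans (Finset.card_union_le _ _)
        have h10 := hout v hv
        have h11 := hin v hv
        omega
      refine le_trans ?_ (pow_le_pow_of_le_one (by linarith) (by linarith) h7)
      have h8 := one_add_mul_le_pow (a := -(1 / (3 * R) : ℝ)) (by linarith) (2 * R)
      have h9 : (1 - 1 / (3 * R) : ℝ) = 1 + -(1 / (3 * R)) := by ring
      rw [h9]
      refine le_trans (le_of_eq ?_) h8
      push_cast
      field_simp
      ring
    calc (1 / (18 * R) : ℝ) = 1 / (6 * R) * (1 / 3) := by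
          field_simp
          norm_num
      _ ≤ _ := mul_le_mul h5 h6 (by norm_num) (le_trans (by positivity) h5)
  have h4 : (Y.card : ℝ) * (1 / (18 * R)) ≤ (s + 1) ^ 2 * 2 ^ R / θ ^ (2 * s) := by
    refine le_trans ?_ h2
    rw [← nsmul_eq_mul, ← Finset.sum_const]
    refine Finset.sum_le_sum fun v hv => (h3 v hv).trans (le_of_eq ?_)
    refine Finset.prod_congr rfl fun γ _ => ?_
    refine Finset.sum_congr ?_ fun _ _ => rfl
    ext o
    simp only [Finset.mem_filter]
  rw [le_div_iff₀ hpos] at h4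
  have h5 : (0 : ℝ) < 18 * R := by linarith
  calc (Y.card : ℝ) * θ ^ (2 * s) = 18 * R * (Y.card * (1 / (18 * R)) * θ ^ (2 * s)) := by
        field_simp
    _ ≤ 18 * R * ((s + 1) ^ 2 * 2 ^ R) := mul_le_mul_of_nonneg_left h4 h5.le

/-- **Labels.** -/
theorem glue_label {θ : ℝ} (h0 : 1 / 2 ≤ θ) (h1 : θ ≤ 1) (hθ : θ ^ 2 = 2 * (1 - θ))
    (hno : ∀ γ v, ¬ MP c U γ v 3) (hR : Rk c U R) (hR1 : 1 ≤ R)
    (hΓ : ∀ γ, ∀ v ∈ U, Md c U γ v → γ ∈ Γ) (lab : ℕ → ℕ)
    (hlab : ∀ u D, RP c U u D → D ⊆ Γ → s < D.card → lab u ∈ D) :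
    (U.card : ℝ) * θ ^ (2 * s) ≤ (R + 1) ^ 2 * (18 * R * ((s + 1) ^ 2 * 2 ^ R)) := by
  have hθ0 : 0 < θ := by linarith
  have hpos : 0 < θ ^ (2 * s) := by positivity
  have h2 := card_le_of_classes (c := c) (Γ := Γ) (X := U)
    (N := 18 * R * ((s + 1) ^ 2 * 2 ^ R) / θ ^ (2 * s)) (r := R)
    (fun v hv => by
      obtain ⟨D, h3, h4, h5⟩ := exists_lp (c := c) (Γ := Γ) hv
      rw [← h5]
      exact hR v D h4)
    (fun v hv => by
      obtain ⟨D, h3, h4, h5⟩ := exists_lq (c := c) (Γ := Γ) hv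
      obtain ⟨y, hy⟩ := h4.toRP_end
      rw [← h5]
      exact hR y D hy)
    (fun i hi j hj => by
      rw [le_div_iff₀ hpos]
      have hsub : cla c Γ U i j ⊆ U := Finset.filter_subset _ _
      exact class_glue h0 h1 hθ (fun γ v h => hno γ v (h.mono hsub)) (hR.sub hsub) hR1
        (fun γ v hv h => hΓ γ v (hsub hv) (h.mono hsub))
        (fun v hv => (cla_out v hv).trans hi) (fun v hv => (cla_in v hv).trans hj) lab
        (fun u D hD => hlab u D (hD.mono hsub)))
  rw [← mul_div_assoc, le_div_iff₀ hpos] at h2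
  exact h2

end FlashRainbow
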