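import Pool.Agent.Work.MP_54723a_co.EL.Glue

/-!
# Two large sets, one before the other, share a flash colour (theorem (EL), note 8397 of helper75)

* `common_flash` : the general form.
* `common_flash_sqrt` : two sets with more than `54 (R + 1) ^ 5 (1 + √3) ^ R` vertices each, one
  before the other, whose union has no 3-flash and rank at most `R`, have a common colour with a
  2-flash in both.
-/

set_option autoImplicit false

namespace FlashRainbow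

open Classical

variable {c : ℕ → ℕ → ℕ} {U X₁ X₂ K₁ K₂ Γ : Finset ℕ} {R s t N : ℕ}

/-- the flash colours of a set -/
noncomputable def fk (c : ℕ → ℕ → ℕ) (X : Finset ℕ) : Finset ℕ :=
  ((X ×ˢ X).image fun p => c p.1 p.2).filter fun γ => ∃ v ∈ X, Md c X γ v

theorem mem_fk {γ v : ℕ} (hv : v ∈ U) (h : Md c U γ v) : γ ∈ fk c U := by
  obtain ⟨a, ha, d, hd, h1, h2, h3, h4⟩ := h
  exact Finset.mem_filter.mpr ⟨Finset.mem_image.mpr ⟨(a, v), Finset.mem_product.mpr ⟨ha, hv⟩, h3⟩,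
    v, hv, a, ha, d, hd, h1, h2, h3, h4⟩

theorem Md.of_rev (hN : ∀ v ∈ U, v ≤ N) {γ v : ℕ} (h : Md (revc c N) (rvs U N) γ v) :
    Md c U γ (N - v) := by
  obtain ⟨a, ha, d, hd, h1, h2, h3, h4⟩ := h
  have ha' := (mem_rvs hN).mp ha
  have hd' := (mem_rvs hN).mp hd
  exact ⟨N - d, hd'.2, N - a, ha'.2, by omega, by omega, h4, h3⟩

/-- **Labels, mirrored.** -/
theorem glue_label_rev {θ : ℝ} (h0 : 1 / 2 ≤ θ) (h1 : θ ≤ 1) (hθ : θ ^ 2 = 2 * (1 - θ))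
    (hno : ∀ γ v, ¬ MP c U γ v 3) (hR : Rk c U R) (hR1 : 1 ≤ R)
    (hΓ : ∀ γ, ∀ v ∈ U, Md c U γ v → γ ∈ Γ) (lab : ℕ → ℕ)
    (hlab : ∀ u D, RS c U u D → D ⊆ Γ → s < D.card → lab u ∈ D) :
    (U.card : ℝ) * θ ^ (2 * s) ≤ (R + 1) ^ 2 * (18 * R * ((s + 1) ^ 2 * 2 ^ R)) := by
  obtain ⟨N, hN⟩ : ∃ N, ∀ v ∈ U, v ≤ N := ⟨U.sup id, fun v hv => Finset.le_sup (f := id) hv⟩
  rw [← card_rvs hN]
  refine glue_label (Γ := Γ) h0 h1 hθ (fun γ v => noMP_rev hN hno γ v) ?_ hR1 ?_ (fun y => lab (N - y)) ?_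
  · intro y D hD
    exact (hD.toRS_rev hN).card_le hR
  · intro γ v hv hmd
    exact hΓ γ _ ((mem_rvs hN).mp hv).2 (hmd.of_rev hN)
  · intro y D hD hDΓ hs
    exact hlab _ D (hD.toRS_rev hN) hDΓ hs

/-- Paths into the first set, arcs to a vertex of the second one. -/
theorem glueL {θ : ℝ} (h0 : 1 / 2 ≤ θ) (h1 : θ ≤ 1) (hθ : θ ^ 2 = 2 * (1 - θ))
    (hlt : ∀ u ∈ X₁, ∀ w ∈ X₂, u < w) (hno : ∀ γ v, ¬ MP c (X₁ ∪ X₂) γ v 3)
    (hR : Rk c (X₁ ∪ X₂) R) (hR1 : 1 ≤ R) (hd : Disjoint K₁ K₂)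
    (hK : ∀ γ, ∀ v ∈ X₁, Md c X₁ γ v → γ ∈ K₁) (hst : R < s + t + 3) {w : ℕ} {D₂ : Finset ℕ}
    (hw : RS c X₂ w D₂) (hD₂ : D₂ ⊆ K₂) (ht : t < D₂.card) :
    ((X₁.filter fun u => c u w ∉ K₂).card : ℝ) * θ ^ (2 * s) ≤
      (R + 1) ^ 2 * (18 * R * ((s + 1) ^ 2 * 2 ^ R)) := by
  have hsub : (X₁.filter fun u => c u w ∉ K₂) ⊆ X₁ := Finset.filter_subset _ _
  have hsub' : (X₁.filter fun u => c u w ∉ K₂) ⊆ X₁ ∪ X₂ :=
    hsub.trans Finset.subset_union_left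
  refine glue_label (Γ := K₁) h0 h1 hθ (fun γ v h => hno γ v (h.mono hsub')) (hR.sub hsub') hR1
    (fun γ v hv h => hK γ v (hsub hv) (h.mono hsub)) (fun u => c u w) ?_
  intro u D hD hDK hs
  by_contra hc
  have hu := Finset.mem_filter.mp hD.mem
  have h2 : RP c (X₁ ∪ X₂) w (insert (c u w) D) :=
    RP.step (hD.mono hsub') (Finset.mem_union_right _ hw.mem) (hlt u hu.1 w hw.mem) hc
  have h3 : Disjoint D₂ (insert (c u w) D) := by
    rw [Finset.disjoint_insert_right]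
    exact ⟨fun h => hu.2 (hD₂ h), (hd.mono hDK hD₂).symm⟩
  obtain ⟨y, hy⟩ := hw.join Finset.subset_union_right _ h2 h3
  have h4 := hR _ _ hy
  rw [Finset.card_union_of_disjoint (by first | exact h3 | exact h3.symm),
    Finset.card_insert_of_notMem hc] at h4
  omega

/-- Paths out of the second set, arcs from a vertex of the first one. -/
theorem glueR {θ : ℝ} (h0 : 1 / 2 ≤ θ) (h1 : θ ≤ 1) (hθ : θ ^ 2 = 2 * (1 - θ))
    (hlt : ∀ u ∈ X₁, ∀ w ∈ X₂, u < w) (hno : ∀ γ v, ¬ MP c (X₁ ∪ X₂) γ v 3)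
    (hR : Rk c (X₁ ∪ X₂) R) (hR1 : 1 ≤ R) (hd : Disjoint K₁ K₂)
    (hK : ∀ γ, ∀ v ∈ X₂, Md c X₂ γ v → γ ∈ K₂) (hst : R < s + t + 3) {u : ℕ} {D₁ : Finset ℕ}
    (hu : RP c X₁ u D₁) (hD₁ : D₁ ⊆ K₁) (hs : s < D₁.card) :
    ((X₂.filter fun w => c u w ∉ K₁).card : ℝ) * θ ^ (2 * t) ≤
      (R + 1) ^ 2 * (18 * R * ((t + 1) ^ 2 * 2 ^ R)) := by
  have hsub : (X₂.filter fun w => c u w ∉ K₁) ⊆ X₂ := Finset.filter_subset _ _
  have hsub' : (X₂.filter fun w => c u w ∉ K₁) ⊆ X₁ ∪ X₂ :=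
    hsub.trans Finset.subset_union_right
  refine glue_label_rev (Γ := K₂) h0 h1 hθ (fun γ v h => hno γ v (h.mono hsub')) (hR.sub hsub')
    hR1 (fun γ v hv h => hK γ v (hsub hv) (h.mono hsub)) (fun w => c u w) ?_
  intro w D hD hDK ht
  by_contra hc
  have hw := Finset.mem_filter.mp hD.mem
  have hcD₁ : c u w ∉ D₁ := fun h => hw.2 (hD₁ h)
  have h2 : RP c (X₁ ∪ X₂) w (insert (c u w) D₁) :=
    RP.step (hu.mono Finset.subset_union_left) (Finset.mem_union_right _ hw.1)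
      (hlt u hu.mem w hw.1) hcD₁
  have h3 : Disjoint D (insert (c u w) D₁) := by
    rw [Finset.disjoint_insert_right]
    exact ⟨hc, (hd.mono hD₁ hDK).symm⟩
  obtain ⟨y, hy⟩ := hD.join hsub' _ h2 h3
  have h4 := hR _ _ hy
  rw [Finset.card_union_of_disjoint (by first | exact h3 | exact h3.symm),
    Finset.card_insert_of_notMem hcD₁] at h4
  omega

/-- **(EL), general form.** -/
theorem common_flash {θ : ℝ} (h0 : 1 / 2 ≤ θ) (h1 : θ ≤ 1) (hθ : θ ^ 2 = 2 * (1 - θ))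
    (hlt : ∀ u ∈ X₁, ∀ w ∈ X₂, u < w) (hno : ∀ γ v, ¬ MP c (X₁ ∪ X₂) γ v 3)
    (hR : Rk c (X₁ ∪ X₂) R) (hR1 : 1 ≤ R) (hst : R < s + t + 3)
    (hA₁ : 3 * ((R + 1) ^ 2 * (18 * R * ((s + 1) ^ 2 * 2 ^ R))) < (X₁.card : ℝ) * θ ^ (2 * s))
    (hA₂ : 3 * ((R + 1) ^ 2 * (18 * R * ((t + 1) ^ 2 * 2 ^ R))) < (X₂.card : ℝ) * θ ^ (2 * t)) :
    ∃ γ, (∃ v ∈ X₁, Md c X₁ γ v) ∧ ∃ v ∈ X₂, Md c X₂ γ v := by
  have hθ0 : 0 < θ := by linarith
  have hps : 0 < θ ^ (2 * s) := by positivity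
  have hpt : 0 < θ ^ (2 * t) := by positivity
  have hRR : (1 : ℝ) ≤ R := by exact_mod_cast hR1
  by_contra hcon
  have hd : Disjoint (fk c X₁) (fk c X₂) := by
    rw [Finset.disjoint_left]
    intro γ h2 h3
    exact hcon ⟨γ, (Finset.mem_filter.mp h2).2, (Finset.mem_filter.mp h3).2⟩
  have hs1 : X₁ ⊆ X₁ ∪ X₂ := Finset.subset_union_left
  have hs2 : X₂ ⊆ X₁ ∪ X₂ := Finset.subset_union_right
  -- bad vertices
  set W₁ := X₁.filter fun u => ¬ ∃ D ⊆ fk c X₁, RP c X₁ u D ∧ s < D.card with hW₁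
  set W₂ := X₂.filter fun w => ¬ ∃ D ⊆ fk c X₂, RS c X₂ w D ∧ t < D.card with hW₂
  have hW₁s : W₁ ⊆ X₁ := Finset.filter_subset _ _
  have hW₂s : W₂ ⊆ X₂ := Finset.filter_subset _ _
  have hW₁c : (W₁.card : ℝ) * θ ^ (2 * s) ≤ (s + 1) ^ 2 * 2 ^ R := by
    refine small_of_short (Γ := fk c X₁) h0 h1 hθ
      (fun γ v h => hno γ v (h.mono (hW₁s.trans hs1))) (hR.sub (hW₁s.trans hs1))
      (fun γ v hv h => mem_fk (hW₁s hv) (h.mono hW₁s)) ?_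
    intro x D hD hDK
    by_contra hs
    exact (Finset.mem_filter.mp hD.mem).2 ⟨D, hDK, hD.mono hW₁s, not_le.mp hs⟩
  have hW₂c : (W₂.card : ℝ) * θ ^ (2 * t) ≤ (t + 1) ^ 2 * 2 ^ R := by
    refine small_of_short (Γ := fk c X₂) h0 h1 hθ
      (fun γ v h => hno γ v (h.mono (hW₂s.trans hs2))) (hR.sub (hW₂s.trans hs2))
      (fun γ v hv h => mem_fk (hW₂s hv) (h.mono hW₂s)) ?_
    intro x D hD hDK
    by_contra hs
    obtain ⟨y, hy⟩ := hD.toRS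
    exact (Finset.mem_filter.mp hy.mem).2 ⟨D, hDK, hy.mono hW₂s, not_le.mp hs⟩
  -- the factors
  have hfac : (216 : ℝ) ≤ 3 * ((R + 1) ^ 2 * (18 * R)) := by nlinarith
  have hW₁l : (W₁.card : ℝ) * 216 ≤ X₁.card := by
    have h2 : (W₁.card : ℝ) * θ ^ (2 * s) * 216 ≤ (X₁.card : ℝ) * θ ^ (2 * s) := by
      refine le_trans ?_ hA₁.le
      calc (W₁.card : ℝ) * θ ^ (2 * s) * 216 ≤ ((s + 1) ^ 2 * 2 ^ R) * 216 :=
            mul_le_mul_of_nonneg_right hW₁c (by norm_num)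
        _ ≤ ((s + 1) ^ 2 * 2 ^ R) * (3 * ((R + 1) ^ 2 * (18 * R))) :=
            mul_le_mul_of_nonneg_left hfac (by positivity)
        _ = _ := by ring
    have h3 : ((W₁.card : ℝ) * 216) * θ ^ (2 * s) ≤ (X₁.card : ℝ) * θ ^ (2 * s) := by linarith
    exact le_of_mul_le_mul_right h3 hps
  have hW₂l : (W₂.card : ℝ) * 216 ≤ X₂.card := by
    have h2 : (W₂.card : ℝ) * θ ^ (2 * t) * 216 ≤ (X₂.card : ℝ) * θ ^ (2 * t) := by
      refine le_trans ?_ hA₂.le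
      calc (W₂.card : ℝ) * θ ^ (2 * t) * 216 ≤ ((t + 1) ^ 2 * 2 ^ R) * 216 :=
            mul_le_mul_of_nonneg_right hW₂c (by norm_num)
        _ ≤ ((t + 1) ^ 2 * 2 ^ R) * (3 * ((R + 1) ^ 2 * (18 * R))) :=
            mul_le_mul_of_nonneg_left hfac (by positivity)
        _ = _ := by ring
    have h3 : ((W₂.card : ℝ) * 216) * θ ^ (2 * t) ≤ (X₂.card : ℝ) * θ ^ (2 * t) := by linarith
    exact le_of_mul_le_mul_right h3 hpt
  have hX₁ : (0 : ℝ) < X₁.card := by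
    by_contra h
    have h2 : (X₁.card : ℝ) = 0 := le_antisymm (not_lt.mp h) (Nat.cast_nonneg _)
    rw [h2, zero_mul] at hA₁
    have : (0 : ℝ) ≤ 3 * ((R + 1) ^ 2 * (18 * R * ((s + 1) ^ 2 * 2 ^ R))) := by positivity
    linarith
  have hX₂ : (0 : ℝ) < X₂.card := by
    by_contra h
    have h2 : (X₂.card : ℝ) = 0 := le_antisymm (not_lt.mp h) (Nat.cast_nonneg _)
    rw [h2, zero_mul] at hA₂
    have : (0 : ℝ) ≤ 3 * ((R + 1) ^ 2 * (18 * R * ((t + 1) ^ 2 * 2 ^ R))) := by positivity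
    linarith
  -- rows and columns
  have hcol : ∀ w ∈ X₂, ((X₁.filter fun u => c u w ∉ fk c X₂).card : ℝ) ≤
      X₁.card / 3 + if w ∈ W₂ then (X₁.card : ℝ) else 0 := by
    intro w hw
    by_cases hwW : w ∈ W₂
    · rw [if_pos hwW]
      have h2 : ((X₁.filter fun u => c u w ∉ fk c X₂).card : ℝ) ≤ X₁.card := by
        exact_mod_cast Finset.card_filter_le _ _
      linarith
    · rw [if_neg hwW, add_zero]
      have h2 : ∃ D ⊆ fk c X₂, RS c X₂ w D ∧ t < D.card := by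
        by_contra h
        exact hwW (Finset.mem_filter.mpr ⟨hw, h⟩)
      obtain ⟨D, hDK, hD, hDc⟩ := h2
      have h3 := glueL h0 h1 hθ hlt hno hR hR1 hd (fun γ v hv h => mem_fk hv h) hst hD hDK hDc
      have h4 : ((X₁.filter fun u => c u w ∉ fk c X₂).card : ℝ) * 3 * θ ^ (2 * s) ≤
          X₁.card * θ ^ (2 * s) := by linarith
      have h5 := le_of_mul_le_mul_right h4 hps
      linarith
  have hrow : ∀ u ∈ X₁, ((X₂.filter fun w => c u w ∉ fk c X₁).card : ℝ) ≤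
      X₂.card / 3 + if u ∈ W₁ then (X₂.card : ℝ) else 0 := by
    intro u hu
    by_cases huW : u ∈ W₁
    · rw [if_pos huW]
      have h2 : ((X₂.filter fun w => c u w ∉ fk c X₁).card : ℝ) ≤ X₂.card := by
        exact_mod_cast Finset.card_filter_le _ _
      linarith
    · rw [if_neg huW, add_zero]
      have h2 : ∃ D ⊆ fk c X₁, RP c X₁ u D ∧ s < D.card := by
        by_contra h
        exact huW (Finset.mem_filter.mpr ⟨hu, h⟩)
      obtain ⟨D, hDK, hD, hDc⟩ := h2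
      have h3 := glueR h0 h1 hθ hlt hno hR hR1 hd (fun γ v hv h => mem_fk hv h) hst hD hDK hDc
      have h4 : ((X₂.filter fun w => c u w ∉ fk c X₁).card : ℝ) * 3 * θ ^ (2 * t) ≤
          X₂.card * θ ^ (2 * t) := by linarith
      have h5 := le_of_mul_le_mul_right h4 hpt
      linarith
  have hsum : (X₁.card : ℝ) * X₂.card ≤
      ∑ w ∈ X₂, ((X₁.filter fun u => c u w ∉ fk c X₂).card : ℝ) +
      ∑ u ∈ X₁, ((X₂.filter fun w => c u w ∉ fk c X₁).card : ℝ) := by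
    have h2 : ∀ w ∈ X₂, ((X₁.filter fun u => c u w ∉ fk c X₂).card : ℝ) =
        ∑ u ∈ X₁, if c u w ∉ fk c X₂ then (1 : ℝ) else 0 := by
      intro w _
      rw [Finset.sum_boole]
    have h3 : ∀ u ∈ X₁, ((X₂.filter fun w => c u w ∉ fk c X₁).card : ℝ) =
        ∑ w ∈ X₂, if c u w ∉ fk c X₁ then (1 : ℝ) else 0 := by
      intro u _
      rw [Finset.sum_boole]
    rw [Finset.sum_congr rfl h2, Finset.sum_congr rfl h3, Finset.sum_comm, ← Finset.sum_add_distrib]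
    calc (X₁.card : ℝ) * X₂.card = ∑ _u ∈ X₁, ∑ _w ∈ X₂, (1 : ℝ) := by
          rw [Finset.sum_const, Finset.sum_const, nsmul_eq_mul, nsmul_eq_mul, mul_one]
      _ ≤ _ := by
        refine Finset.sum_le_sum fun u _ => ?_
        rw [← Finset.sum_add_distrib]
        refine Finset.sum_le_sum fun w _ => ?_
        by_cases h4 : c u w ∈ fk c X₂
        · have h5 : c u w ∉ fk c X₁ := fun h => (Finset.disjoint_left.mp hd h) h4
          rw [if_pos h5, if_neg (not_not.mpr h4)]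
          norm_num
        · rw [if_pos h4]
          split_ifs <;> norm_num
  have h2 : ∑ w ∈ X₂, ((X₁.filter fun u => c u w ∉ fk c X₂).card : ℝ) ≤
      X₂.card * (X₁.card / 3) + W₂.card * X₁.card := by
    refine (Finset.sum_le_sum hcol).trans (le_of_eq ?_)
    rw [Finset.sum_add_distrib, Finset.sum_const, nsmul_eq_mul, ← Finset.sum_filter,
      Finset.filter_mem_eq_inter, Finset.inter_eq_right.mpr hW₂s, Finset.sum_const, nsmul_eq_mul]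
  have h3 : ∑ u ∈ X₁, ((X₂.filter fun w => c u w ∉ fk c X₁).card : ℝ) ≤
      X₁.card * (X₂.card / 3) + W₁.card * X₂.card := by
    refine (Finset.sum_le_sum hrow).trans (le_of_eq ?_)
    rw [Finset.sum_add_distrib, Finset.sum_const, nsmul_eq_mul, ← Finset.sum_filter,
      Finset.filter_mem_eq_inter, Finset.inter_eq_right.mpr hW₁s, Finset.sum_const, nsmul_eq_mul]
  have h4 : (W₂.card : ℝ) * X₁.card * 216 ≤ X₁.card * X₂.card := by
    nlinarith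
  have h5 : (W₁.card : ℝ) * X₂.card * 216 ≤ X₁.card * X₂.card := by
    nlinarith
  have h6 : (0 : ℝ) < X₁.card * X₂.card := mul_pos hX₁ hX₂
  nlinarith

/-- **(EL).** -/
theorem common_flash_sqrt (hlt : ∀ u ∈ X₁, ∀ w ∈ X₂, u < w)
    (hno : ∀ γ v, ¬ MP c (X₁ ∪ X₂) γ v 3) (hR : Rk c (X₁ ∪ X₂) R) (hR1 : 1 ≤ R)
    (hA₁ : 54 * ((R : ℝ) + 1) ^ 5 * (1 + √3) ^ R < X₁.card)
    (hA₂ : 54 * ((R : ℝ) + 1) ^ 5 * (1 + √3) ^ R < X₂.card) :
    ∃ γ, (∃ v ∈ X₁, Md c X₁ γ v) ∧ ∃ v ∈ X₂, Md c X₂ γ v := by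
  have h3 : √3 * √3 = (3 : ℝ) := Real.mul_self_sqrt (by norm_num)
  have h3a : (3 / 2 : ℝ) ≤ √3 := by nlinarith [Real.sqrt_nonneg 3]
  have h3b : √3 ≤ (2 : ℝ) := by nlinarith [Real.sqrt_nonneg 3]
  have hθ0 : (0 : ℝ) < √3 - 1 := by linarith
  have hprod : (1 + √3) * (√3 - 1) = (2 : ℝ) := by nlinarith
  have hRR : (1 : ℝ) ≤ R := by exact_mod_cast hR1
  have key : ∀ X : Finset ℕ, 54 * ((R : ℝ) + 1) ^ 5 * (1 + √3) ^ R < X.card →
      3 * (((R : ℝ) + 1) ^ 2 * (18 * R * ((((R - 1) / 2 : ℕ) + 1) ^ 2 * 2 ^ R))) <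
        (X.card : ℝ) * (√3 - 1) ^ (2 * ((R - 1) / 2)) := by
    intro X hX
    have hs : (((R - 1) / 2 : ℕ) : ℝ) ≤ R := by
      exact_mod_cast (Nat.div_le_self _ _).trans (Nat.sub_le _ _)
    have h4 : (√3 - 1) ^ R ≤ (√3 - 1) ^ (2 * ((R - 1) / 2)) :=
      pow_le_pow_of_le_one hθ0.le (by linarith) (by omega)
    have h5 : 54 * ((R : ℝ) + 1) ^ 5 * 2 ^ R < (X.card : ℝ) * (√3 - 1) ^ R := by
      have h6 : 54 * ((R : ℝ) + 1) ^ 5 * 2 ^ R =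
          54 * ((R : ℝ) + 1) ^ 5 * (1 + √3) ^ R * (√3 - 1) ^ R := by
        rw [mul_assoc _ ((1 + √3) ^ R), ← mul_pow, hprod]
      rw [h6]
      exact mul_lt_mul_of_pos_right hX (pow_pos hθ0 R)
    have h7 : 3 * (((R : ℝ) + 1) ^ 2 * (18 * R * ((((R - 1) / 2 : ℕ) + 1) ^ 2 * 2 ^ R))) ≤
        54 * ((R : ℝ) + 1) ^ 5 * 2 ^ R := by
      have h8 : ((((R - 1) / 2 : ℕ) : ℝ) + 1) ^ 2 ≤ ((R : ℝ) + 1) ^ 2 :=
        pow_le_pow_left₀ (by positivity) (by linarith) 2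
      calc 3 * (((R : ℝ) + 1) ^ 2 * (18 * R * ((((R - 1) / 2 : ℕ) + 1) ^ 2 * 2 ^ R)))
          = 54 * ((R : ℝ) + 1) ^ 2 * R * 2 ^ R * ((((R - 1) / 2 : ℕ) : ℝ) + 1) ^ 2 := by ring
        _ ≤ 54 * ((R : ℝ) + 1) ^ 2 * R * 2 ^ R * ((R : ℝ) + 1) ^ 2 :=
            mul_le_mul_of_nonneg_left h8 (by positivity)
        _ = 54 * ((R : ℝ) + 1) ^ 4 * 2 ^ R * R := by ring
        _ ≤ 54 * ((R : ℝ) + 1) ^ 4 * 2 ^ R * (R + 1) :=
            mul_le_mul_of_nonneg_left (by linarith) (by positivity)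
        _ = 54 * ((R : ℝ) + 1) ^ 5 * 2 ^ R := by ring
    calc _ ≤ _ := h7
      _ < _ := h5
      _ ≤ _ := mul_le_mul_of_nonneg_left h4 (Nat.cast_nonneg _)
  refine common_flash (θ := √3 - 1) (s := (R - 1) / 2) (t := (R - 1) / 2) (by linarith)
    (by linarith) (by nlinarith) hlt hno hR hR1 (by omega) ?_ ?_
  · exact key X₁ hA₁
  · exact key X₂ hA₂

end FlashRainbow
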